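import Pool.Agent.H37.CTL.Stmts

set_option autoImplicit false

namespace Pool.CND

open Finset Polynomial

theorem lc1_thm (hCNV : S_CNV) (hUMW : S_UMW) : S_LC1 := by
  classical
  intro p k L G _ _ _ _ _ P ρ I W M D τ l hp hchar hinj hI hW hMW hnorm hcos hτD hlst hU
  have hUM := hUMW k L G P ρ W hinj hW
  set b : G → ℤ := fun g => P.b (ρ g) with hb
  have hsm : ∀ T : Set G, sm b T = ∑ g ∈ univ.filter (fun g => g ∈ T), b g := by
    intro T
    unfold sm
    refine Finset.sum_congr ?_ fun _ _ => rfl
    ext x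
    simp
  have hcard : ∀ H : Subgroup G, Nat.card H = (univ.filter (fun g => g ∈ H)).card := by
    intro H
    rw [Nat.card_eq_fintype_card]
    exact (Fintype.card_subtype (fun g => g ∈ H))
  have hMpos : 0 < Nat.card M := Nat.card_pos
  -- the sum over `M`
  have hUM' : l + sm b {g | g ∈ M ∧ g ≠ 1} = Nat.card M * D := by
    have h1 : ((l : ℚ) + sm b {g | g ∈ M ∧ g ≠ 1}) / Nat.card M = D := hU
    have h2 : (Nat.card M : ℚ) ≠ 0 := by exact_mod_cast hMpos.ne'
    rw [div_eq_iff h2] at h1
    have h3 : ((l + sm b {g | g ∈ M ∧ g ≠ 1} : ℤ) : ℚ) = ((Nat.card M * D : ℤ) : ℚ) := by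
      push_cast
      linarith
    exact_mod_cast h3
  -- cosets
  have hcs : ∀ g : G, sm b {x | g⁻¹ * x ∈ M} =
      b g + ∑ m ∈ univ.filter (fun m => m ∈ M ∧ m ≠ 1), b (g * m) := by
    intro g
    have h1 : sm b {x | g⁻¹ * x ∈ M} = ∑ m ∈ univ.filter (fun m => m ∈ M), b (g * m) := by
      rw [hsm]
      symm
      refine Finset.sum_bij (fun m _ => g * m) ?_ ?_ ?_ ?_
      · intro m hm
        simp only [mem_filter, mem_univ, true_and, Set.mem_ofPred_eq] at hm ⊢
        rwa [inv_mul_cancel_left]
      · intro m _ m' _ h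
        exact mul_left_cancel h
      · intro x hx
        simp only [mem_filter, mem_univ, true_and, Set.mem_ofPred_eq] at hx ⊢
        exact ⟨g⁻¹ * x, hx, mul_inv_cancel_left g x⟩
      · intro m _
        rfl
    have h2 : univ.filter (fun m => m ∈ M) = insert 1 (univ.filter (fun m => m ∈ M ∧ m ≠ 1)) := by
      ext m
      simp only [mem_filter, mem_univ, true_and, mem_insert]
      constructor
      · intro h
        by_cases h1 : m = 1
        · exact Or.inl h1
        · exact Or.inr ⟨h, h1⟩
      · rintro (rfl | h)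
        · exact M.one_mem
        · exact h.1
    rw [h1, h2, Finset.sum_insert (by simp), mul_one]
  have hMs : sm b {g | g ∈ M ∧ g ≠ 1} = ∑ m ∈ univ.filter (fun m => m ∈ M ∧ m ≠ 1), b m := by
    rw [hsm]
    refine Finset.sum_congr ?_ fun _ _ => rfl
    ext g
    simp
  have hlW : IsLst b W l := by
    refine ⟨?_, ?_⟩
    · obtain ⟨g, hg, hg1, hgl⟩ := hlst.mem
      exact ⟨g, hMW hg, hg1, hgl⟩
    · intro g hg hg1
      by_cases hgM : g ∈ M
      · exact hlst.le g hgM hg1
      · by_contra hlt
        push Not at hlt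
        have h1 := hcs g
        rw [hcos g hg hgM] at h1
        have h2 : ∑ m ∈ univ.filter (fun m => m ∈ M ∧ m ≠ 1), b m ≤
            ∑ m ∈ univ.filter (fun m => m ∈ M ∧ m ≠ 1), b (g * m) := by
          refine Finset.sum_le_sum fun m hm => ?_
          simp only [mem_filter, mem_univ, true_and] at hm
          have h3 : g * m ≠ 1 := by
            intro h
            apply hgM
            rw [mul_eq_one_iff_eq_inv] at h
            rw [h]
            exact M.inv_mem hm.1
          have h4 := hUM.mul g hg m (hMW hm.1) hg1 hm.2 h3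
          have h5 := hlst.le m hm.1 hm.2
          have h6 : min (b g) (b m) = b m := min_eq_right (by linarith)
          rw [h6] at h4
          exact h4
        rw [← hMs] at h2
        have h7 : (Nat.card M : ℤ) * τ < Nat.card M * D := by
          have : (τ : ℤ) < D := by exact_mod_cast hτD
          exact mul_lt_mul_of_pos_left this (by exact_mod_cast hMpos)
        linarith
  -- the sum over `W \ M`
  set F : Finset G := univ.filter (fun g => g ∈ W ∧ g ∉ M) with hF
  have hFsum : (Nat.card M : ℤ) * ∑ x ∈ F, b x = F.card * (Nat.card M * τ) := by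
    have h1 : ∑ g ∈ F, sm b {x | g⁻¹ * x ∈ M} = F.card * (Nat.card M * τ) := by
      rw [Finset.sum_congr rfl (fun g hg => hcos g (mem_filter.1 hg).2.1 (mem_filter.1 hg).2.2),
        Finset.sum_const, nsmul_eq_mul]
    rw [← h1]
    have h2 : ∀ g ∈ F, sm b {x | g⁻¹ * x ∈ M} =
        ∑ x ∈ univ.filter (fun x => g⁻¹ * x ∈ M), b x := by
      intro g _
      rw [hsm]
      refine Finset.sum_congr ?_ fun _ _ => rfl
      ext x
      simp
    rw [Finset.sum_congr rfl h2]
    rw [Finset.sum_comm' (t' := F) (s' := fun x => univ.filter (fun g => g⁻¹ * x ∈ M))]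
    · rw [Finset.mul_sum]
      refine Finset.sum_congr rfl fun x _ => ?_
      rw [Finset.sum_const, nsmul_eq_mul]
      congr 1
      rw [hcard]
      norm_cast
      refine Finset.card_bij (fun m _ => x * m⁻¹) ?_ ?_ ?_
      · intro m hm
        simp only [mem_filter, mem_univ, true_and] at hm ⊢
        have : (x * m⁻¹)⁻¹ * x = m := by group
        rwa [this]
      · intro m _ m' _ h
        exact inv_injective (mul_left_cancel h)
      · intro g hg
        simp only [mem_filter, mem_univ, true_and] at hg ⊢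
        exact ⟨g⁻¹ * x, hg, by group⟩
    · intro g x
      simp only [hF, mem_filter, mem_univ, true_and]
      constructor
      · rintro ⟨⟨hgW, hgM⟩, hx⟩
        refine ⟨hx, ?_, ?_⟩
        · have : x = g * (g⁻¹ * x) := by group
          rw [this]
          exact W.mul_mem hgW (hMW hx)
        · intro hxM
          apply hgM
          have : g = x * (g⁻¹ * x)⁻¹ := by group
          rw [this]
          exact M.mul_mem hxM (M.inv_mem hx)
      · rintro ⟨hx, hxW, hxM⟩
        refine ⟨⟨?_, ?_⟩, hx⟩
        · have : g = x * (g⁻¹ * x)⁻¹ := by group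
          rw [this]
          exact W.mul_mem hxW (W.inv_mem (hMW hx))
        · intro hgM
          apply hxM
          have : x = g * (g⁻¹ * x) := by group
          rw [this]
          exact M.mul_mem hgM hx
  have hFc : (F.card : ℤ) = Nat.card W - Nat.card M := by
    have h1 : F = univ.filter (fun g => g ∈ W) \ univ.filter (fun g => g ∈ M) := by
      ext g
      simp [hF]
    have h2 : univ.filter (fun g => g ∈ M) ⊆ univ.filter (fun g => g ∈ W) := by
      intro g hg
      rw [mem_filter] at hg ⊢
      exact ⟨mem_univ _, hMW hg.2⟩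
    rw [h1, Finset.card_sdiff_of_subset h2, ← hcard, ← hcard]
    have h3 : Nat.card M ≤ Nat.card W := by
      rw [hcard, hcard]
      exact Finset.card_le_card h2
    push_cast [Nat.cast_sub h3]
    ring
  have hFs : ∑ x ∈ F, b x = (Nat.card W - Nat.card M) * τ := by
    have h1 : (Nat.card M : ℤ) ≠ 0 := by exact_mod_cast hMpos.ne'
    apply mul_left_cancel₀ h1
    rw [hFsum, hFc]
    ring
  have hWs : sm b {g | g ∈ W ∧ g ≠ 1} = sm b {g | g ∈ M ∧ g ≠ 1} + ∑ x ∈ F, b x := by
    rw [hsm, hMs, ← Finset.sum_union]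
    · refine Finset.sum_congr ?_ fun _ _ => rfl
      ext g
      simp only [hF, mem_filter, mem_univ, true_and, mem_union, Set.mem_ofPred_eq]
      constructor
      · rintro ⟨h1, h2⟩
        by_cases h : g ∈ M
        · exact Or.inl ⟨h, h2⟩
        · exact Or.inr ⟨h1, h⟩
      · rintro (⟨h1, h2⟩ | ⟨h1, h2⟩)
        · exact ⟨hMW h1, h2⟩
        · exact ⟨h1, fun h => h2 (h ▸ M.one_mem)⟩
    · rw [Finset.disjoint_left]
      intro g h1 h2
      simp only [hF, mem_filter, mem_univ, true_and] at h1 h2
      exact h2.2 h1.1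
  have hfin : (Nat.card W : ℚ) * U b W l =
      (Nat.card M : ℚ) * D + ((Nat.card W : ℚ) - Nat.card M) * τ := by
    have hWpos : (Nat.card W : ℚ) ≠ 0 := by
      have : 0 < Nat.card W := Nat.card_pos
      exact_mod_cast this.ne'
    unfold U
    rw [mul_div_cancel₀ _ hWpos, hWs, hFs]
    have h1 : ((l + sm b {g | g ∈ M ∧ g ≠ 1} : ℤ) : ℚ) = ((Nat.card M * D : ℤ) : ℚ) := by
      rw [hUM']
    push_cast at h1 ⊢
    linarith
  have := hCNV k L G P ρ W I l hinj hW hI hlW
  rw [hfin] at this
  exact this

end Pool.CND
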